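import Pool.Agent.Q62.DN.GalPub
import Pool.Agent.W12.TQ.Iter
import Pool.Agent.W347.TQ.Ode
import Pool.Agent.W52.TQ.Univ
import Pool.Agent.W775.TQ.Dtp
import Pool.Agent.W503.TQ.Est1
import Pool.Agent.W790.TQ.Est2
import Pool.Agent.W52.TQ.Loc
import Pool.Agent.W503.TQ.Uni
import Pool.Agent.W271.ES.Pt
import Pool.Agent.W918.ES.Gr
import Pool.Agent.W91.ES.Conc

/-!
Galerkin approximations see a singularity of the Navier-Stokes equations in a bounded domain.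

Let `E` be any closed subspace of `V = H¹_{0,σ}(Ω)`, for example spanned by eigenfunctions of the
Stokes operator, or a space of divergence free finite elements. Its resolution `h` is the best
constant in `‖p‖ ≤ h ‖∇p‖` for the `p ∈ V` such that `∇p` is orthogonal to `∇e` for all `e ∈ E` (for the
first `n` eigenfunctions `h = λ_{n+1}^{-1/2}`). If the solution `u` has a first singular time `τ`, then
for all Galerkin solutions `v` in all spaces `E`, with nearby initial values and forces,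
`∫_s^τ ‖∇v‖₂⁴ ≥ c ν³ (log (1 / ε) - M)`, where `ε` bounds `h^(1/4)`, the distance of the initial values in
`L²` and the distance of the forces in `L²(0,τ; H⁻¹)`; `c` is an absolute constant and `M` depends on
`u` and `s`. So the solution is regular up to `τ` as soon as along one sequence of approximations with
`ε → 0` the integral `∫_s^τ ‖∇v‖₂⁴` is less than `c ν³ log (1 / ε)` (bounded, say). The case `E = V` is
included: `v` is then a Leray-Hopf solution with nearby data, and a nearby viscosity may be regarded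
as a part of the force.
-/

set_option autoImplicit false

open MeasureTheory Set
open scoped InnerProductSpace ENNReal ContDiff

namespace Pool.Agent.Q62.Variants.GalerkinSpaces

open H772R2.NS.Pub Pool.Agent.W795.TQ
open Pool.Agent.W795.ES (stretch)

/-- `v` is a Galerkin solution on `[0,T]` in the space `E` of pairs `(e, ∇e)`, with the force
`⟨f(t), φ⟩ = (F(t), ∇φ)`; `D = ∇v`:
* `v(t) ∈ E` with gradient `D(t)` for almost every `t`, `∇v ∈ L²(0,T; L²)`, `F ∈ L²(0,T; L²)`;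
* the equations hold tested with the elements of `E`, integrated in time from `0` to `t`;
* the energy inequality (for finite dimensional `E` a consequence, with equality). -/
structure IsGalerkin (Ω : Set R3) (ν T : ℝ) (E : Submodule ℝ (L2 Ω R3 × L2 Ω Mat))
    (F : ℝ → L2 Ω Mat) (v : ℝ → L2 Ω R3) (D : ℝ → L2 Ω Mat) : Prop where
  meas : AEStronglyMeasurable v (volume.restrict (Ioc 0 T))
  mem : ∀ᵐ t ∂(volume.restrict (Ioc 0 T)), (v t, D t) ∈ E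
  gradL2 : MemLp D 2 (volume.restrict (Ioc 0 T))
  forceL2 : MemLp F 2 (volume.restrict (Ioc 0 T))
  eqn : ∀ p ∈ E, ∀ t ∈ Icc 0 T, ⟪v t - v 0, p.1⟫_ℝ
    = ∫ s in (0 : ℝ)..t, (⟪F s, p.2⟫_ℝ - ν * ⟪D s, p.2⟫_ℝ + stretch p.2 (v s))
  energy : ∀ t ∈ Icc 0 T, ‖v t‖ ^ 2 / 2 + ν * (∫ s in (0 : ℝ)..t, ‖D s‖ ^ 2)
    ≤ ‖v 0‖ ^ 2 / 2 + ∫ s in (0 : ℝ)..t, ⟪F s, D s⟫_ℝ

/-- There is an absolute constant `c > 0` with the following property. Let `u` be a Leray-Hopf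
solution on `[0,T]` with admissible data in a bounded open set `Ω`, `ν` the viscosity, `F` the force.
Then either `u` is a strong solution on `[0,T]`, or there is a first singular time `τ ∈ (0,T]` with
the following property. For `0 ≤ s < τ` there is a number `M` such that, whenever `0 < ε ≤ 1`, `E` is a
closed subspace of `V` (in terms of the pairs `(e, ∇e)`) such that `‖p‖ ≤ ε⁴ ‖∇p‖` for all `p ∈ V` with
`(∇p, ∇e) = 0` for all `e ∈ E`, `v` is a Galerkin solution on `[0,τ]` in the space `E`, with the force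
`F₁`, `∫_0^τ ‖F₁ - F‖² ≤ ε²`, `‖v(0) - u(0)‖ ≤ ε`, and `β` is integrable on `(s,τ)` with `‖∇v(t)‖⁴ ≤ β(t)`
for almost every `t`, one has `∫_s^τ β ≥ c ν³ (log (1 / ε) - M)`. -/
theorem result : ∃ c : ℝ, 0 < c ∧
    ∀ (Ω : Set R3), IsOpen Ω → Bornology.IsBounded Ω → ∀ (ν T : ℝ), 0 < ν → 0 < T →
    ∀ (F F' : ℝ → L2 Ω Mat), IsH1 T F F' →
    ∀ (u : ℝ → L2 Ω R3) (G : ℝ → L2 Ω Mat), IsLerayHopf Ω ν T F u G →
    ∀ z0 : L2 Ω Mat, (u 0, z0) ∈ H1graph Ω →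
    (∃ g : L2 Ω R3, ∀ φ, IsTest Ω φ → rhs ν (u 0) z0 (F 0) φ = ∫ x in Ω, ⟪g.fn x, φ x⟫_ℝ) →
    (∃ u' G1 G', IsStrong Ω ν T F u u' G1 G') ∨
    ∃ τ ∈ Ioc 0 T, (∀ t ∈ Ioo 0 τ, ∃ u' G1 G', IsStrong Ω ν t F u u' G1 G') ∧
      ∀ s ∈ Ico 0 τ, ∃ M : ℝ, ∀ ε : ℝ, 0 < ε → ε ≤ 1 →
        ∀ E : Submodule ℝ (L2 Ω R3 × L2 Ω Mat), IsClosed (E : Set (L2 Ω R3 × L2 Ω Mat)) →
          (∀ e ∈ E, e ∈ H1graph Ω) →
          (∀ p ∈ H1graph Ω, (∀ e ∈ E, ⟪p.2, e.2⟫_ℝ = 0) → ‖p.1‖ ≤ ε ^ 4 * ‖p.2‖) →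
        ∀ (F₁ : ℝ → L2 Ω Mat) (v : ℝ → L2 Ω R3) (D : ℝ → L2 Ω Mat), IsGalerkin Ω ν τ E F₁ v D →
          ∫ t in (0 : ℝ)..τ, ‖F₁ t - F t‖ ^ 2 ≤ ε ^ 2 → ‖v 0 - u 0‖ ≤ ε →
        ∀ β : ℝ → ℝ, IntegrableOn β (Ioo s τ) →
          (∀ᵐ t ∂(volume.restrict (Ioo s τ)), ‖D t‖ ^ 4 ≤ β t) →
          c * ν ^ 3 * (Real.log (1 / ε) - M) ≤ ∫ t in s..τ, β t := by
  obtain ⟨c, hc, H⟩ := Pool.Agent.Q62.DN.gal_mid Pool.Agent.W91.ES.proof
    (Pool.Agent.W918.ES.proof Pool.Agent.W271.ES.proof) Pool.Agent.W12.TQ.proof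
    Pool.Agent.W347.TQ.proof_ode
    Pool.Agent.W775.TQ.proof_dtp Pool.Agent.W503.TQ.proof_est1 Pool.Agent.W790.TQ.proof_est2
    Pool.Agent.W52.TQ.proof_loc Pool.Agent.W503.TQ.proof_uni Pool.Agent.W52.TQ.proof_univ
  refine ⟨c, hc, ?_⟩
  intro Ω hΩ hb ν T hν hT F F' hF u G L z0 h0 hg
  obtain ⟨g, hg'⟩ := hg
  rcases H Ω hΩ hb ν T hν hT F F' hF.memLp hF.prim u G L.meas
    (by
      filter_upwards [L.grad] with t ht
      exact mem_pub.mpr ht) L.gradL2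
    (fun φ hφ t ht => L.eqn φ ((isTest_iff φ).mpr hφ) t ht) L.energy z0 (mem_pub.mpr h0)
    ⟨g, fun φ hφ => hg' φ ((isTest_iff φ).mpr hφ)⟩ with h1 | ⟨τ, hτ, h1, h2⟩
  · exact Or.inl h1
  refine Or.inr ⟨τ, hτ, h1, fun s hs => ?_⟩
  obtain ⟨M, hM⟩ := h2 s hs
  refine ⟨M, fun ε hε hε1 E hE hEV hEh F₁ v D S hF₁ hv0 β hβ hD => ?_⟩
  refine hM ε hε hε1 E (ε ^ 4) F₁ v D β ⟨hE, fun p hp => mem_pub.mpr (hEV p hp), le_rfl,
    fun p hp hpe => hEh p (mem_pub.mp hp) hpe, ?_, hF₁, hv0⟩ hβ hD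
  exact Pool.Agent.Q62.DN.pub_app hΩ (fun p hp => mem_pub.mpr (hEV p hp)) S.meas S.mem S.gradL2
    S.forceL2 S.eqn S.energy

end Pool.Agent.Q62.Variants.GalerkinSpaces
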